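import Mathlib
import Pool.Agent.Helper43x.UC.Gal

/-!
# Several Weil numbers in one CM field: the threshold
-/

set_option autoImplicit false

namespace Pool.Agent.Helper43x.TH

open NumberField NumberField.IsCMField Pool.Agent.H485R3 Pool.Agent.H925R2
open Pool.Agent.Helper43x.ZO Pool.Agent.Helper43x.UC
open Pool.Agent.H485R3.Exact (ldev ldev_conj norm_p_padic norm_eq_one_of_ne)

variable {K : Type} [Field K] [NumberField K] [IsCMField K] (p : ℕ) [Fact p.Prime]
  {A : Type} [Field A] [CharZero A] [Algebra ℚ A] [IsAlgClosed A] [Algebra.IsAlgebraic ℚ A]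

/-- the place of an embedding in `ℚ_p` determines the embedding -/
theorem place_inj (x : K →+* ℚ_[p]) (y : K →+* PadicAlgCl p)
    (hy : ∀ z, ‖y z‖ = ‖((algebraMap ℚ_[p] (PadicAlgCl p)).comp x) z‖) :
    y = (algebraMap ℚ_[p] (PadicAlgCl p)).comp x := by
  by_contra hne
  set y₁ : K →+* PadicAlgCl p := (algebraMap ℚ_[p] (PadicAlgCl p)).comp x with hy₁
  obtain ⟨γ, hγ0, hγ⟩ := principal_pow (primeOf p y₁) (primeOf_ne_bot p y₁)
  have h1 := norm_gen_eq_one p x y₁ hy₁ _ γ (ZO.classNumber_pos (K := K)) hγ0 hγ y hne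
  have h2 : γ ∈ primeOf p y₁ := by
    have h4 : γ ∈ primeOf p y₁ ^ classNumber K := by
      rw [hγ]
      exact Ideal.mem_span_singleton_self γ
    exact Ideal.pow_le_self (ZO.classNumber_pos (K := K)).ne' h4
  rw [mem_primeOf, ← hy, h1] at h2
  exact lt_irrefl _ h2

/-- too many Weil numbers -/
theorem too_many (s : ℕ) (x : Fin s → (K →+* PadicAlgCl p))
    (hself : ∀ y : K →+* PadicAlgCl p, (∃ i, y = x i ∨ y = bar (x i)) ∨
      ∀ z, ‖bar y z‖ = ‖y z‖) (r : ℕ) (hr : s < r) (a : ℕ) (π : Fin r → K)
    (hπ : WeilTuple (K := fun _ : Fin r => K) p a π)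
    (hsep : Separated (K := fun _ : Fin r => K) π) :
    ¬ Generated (K := fun _ : Fin r => K) π (p ^ a) := by
  classical
  intro hgen
  obtain ⟨A, _, _, _, _⟩ := exists_algClosure
  have hcA : CharZero A := algebraRat.charZero A
  have hno := norel_of_generated (A := A) hπ hsep hgen
  let u : Fin r → (K →+* PadicAlgCl p) → ℝ := fun i y => ldev p a (y (π i))
  have hu1 : ∀ i y, u i (bar y) = - u i y := fun i y => ldev_odd hπ i y
  let w : Fin r → (Fin s → ℝ) := fun i k => u i (x k)
  have hdep : ¬ LinearIndependent ℝ w := by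
    intro h
    have h1 := h.fintype_card_le_finrank
    rw [Fintype.card_fin, Module.finrank_fintype_fun_eq_card, Fintype.card_fin] at h1
    omega
  rw [Fintype.not_linearIndependent_iff] at hdep
  obtain ⟨c, hc, i₀, hi₀⟩ := hdep
  have hcu : ∀ y, ∑ i, c i * u i y = 0 := by
    have hx : ∀ k, ∑ i, c i * u i (x k) = 0 := by
      intro k
      have h1 := congrFun hc k
      rw [Finset.sum_apply] at h1
      exact h1
    intro y
    rcases hself y with ⟨k, rfl | rfl⟩ | h
    · exact hx k
    · have h1 : ∑ i, c i * u i (bar (x k)) = - ∑ i, c i * u i (x k) := by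
        rw [← Finset.sum_neg_distrib]
        refine Finset.sum_congr rfl fun i _ => ?_
        rw [hu1]
        ring
      rw [h1, hx, neg_zero]
    · refine Finset.sum_eq_zero fun i _ => ?_
      have h1 : u i (bar y) = u i y := by
        simp only [u]
        unfold ldev
        rw [h]
      rw [hu1] at h1
      have h2 : u i y = 0 := by linarith
      rw [h2, mul_zero]
  let τ₀ : K →+* A := (IsAlgClosed.lift : K →ₐ[ℚ] A).toRingHom
  let β : (K →+* A) → ℝ := fun τ => (if τ = τ₀ then 1 else 0) - (if τ = bar τ₀ then 1 else 0)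
  have hβ : ∀ τ, β (bar τ) = - β τ := by
    intro τ
    have h1 : bar τ = τ₀ ↔ τ = bar τ₀ :=
      ⟨fun h => by rw [← h, bar_bar], fun h => by rw [h, bar_bar]⟩
    have h2 : bar τ = bar τ₀ ↔ τ = τ₀ :=
      ⟨fun h => by rw [← bar_bar τ, h, bar_bar], fun h => by rw [h]⟩
    simp only [β, h1, h2]
    ring
  have h1 := hno (fun j => c j.1 * β j.2) (by
    intro j
    change c j.1 * β (bar j.2) = _
    rw [hβ]
    ring) (by
    intro e
    rw [Fintype.sum_sigma, Finset.sum_comm]
    refine Finset.sum_eq_zero fun τ _ => ?_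
    have h2 := hcu (e.comp τ)
    have h3 : ∑ i, c i * β τ * Dv p a π e (⟨i, τ⟩ : Σ _ : Fin r, K →+* A) =
        β τ * ∑ i, c i * u i (e.comp τ) := by
      rw [Finset.mul_sum]
      refine Finset.sum_congr rfl fun i _ => ?_
      change c i * β τ * u i (e.comp τ) = _
      ring
    exact h3.trans (by rw [h2, mul_zero]))
  have h2 := congrFun h1 ⟨i₀, τ₀⟩
  have h3 : β τ₀ = 1 := by
    simp [β, (bar_ne τ₀).symm]
  have h4 : c i₀ * β τ₀ = 0 := h2
  rw [h3, mul_one] at h4
  exact hi₀ h4

/-- the criterion holds -/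
theorem crit_sign (hsign : ∀ σ : K →+* A, ∃ g : A ≃+* A, (g : A →+* A).comp σ = bar σ ∧
      ∀ τ, τ ≠ σ → τ ≠ bar σ → (g : A →+* A).comp τ = τ)
    (r : ℕ) (x : Fin r → (K →+* ℚ_[p]))
    (hx : ∀ i j, i ≠ j → x i ≠ x j ∧ x i ≠ bar (x j)) :
    Crit p (fun _ : Fin r => K) A := by
  classical
  let y : Fin r → (K →+* PadicAlgCl p) := fun i => (algebraMap ℚ_[p] (PadicAlgCl p)).comp (x i)
  have hybar : ∀ i, bar (y i) = (algebraMap ℚ_[p] (PadicAlgCl p)).comp (bar (x i)) := fun i => rfl
  have hinj : ∀ f g : K →+* ℚ_[p], (algebraMap ℚ_[p] (PadicAlgCl p)).comp f =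
      (algebraMap ℚ_[p] (PadicAlgCl p)).comp g → f = g := by
    intro f g h
    ext z
    apply (algebraMap ℚ_[p] (PadicAlgCl p)).injective
    exact congrArg (fun f : K →+* PadicAlgCl p => f z) h
  let n : Fin r → (K →+* PadicAlgCl p) → ℤ := fun i v =>
    (if v = y i then 1 else 0) - (if v = bar (y i) then 1 else 0)
  refine ⟨n, ?_, ?_, ?_⟩
  · intro i v
    have h1 : bar v = y i ↔ v = bar (y i) :=
      ⟨fun h => by rw [← h, bar_bar], fun h => by rw [h, bar_bar]⟩
    have h2 : bar v = bar (y i) ↔ v = y i :=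
      ⟨fun h => by rw [← bar_bar v, h, bar_bar], fun h => by rw [h]⟩
    simp only [n, h1, h2]
    ring
  · intro i v v' h
    have h1 : v = y i ↔ v' = y i := by
      constructor
      · rintro rfl
        exact place_inj p (x i) v' fun z => (h z).symm
      · rintro rfl
        exact place_inj p (x i) v h
    have h2 : v = bar (y i) ↔ v' = bar (y i) := by
      rw [hybar]
      constructor
      · rintro rfl
        exact place_inj p (bar (x i)) v' fun z => (h z).symm
      · rintro rfl
        exact place_inj p (bar (x i)) v h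
    simp only [n, h1, h2]
  · intro b hb hrel
    -- the embedding over `y i`
    choose t ht using fun (e : A →+* PadicAlgCl p) (i : Fin r) => exists_factor' e (y i)
    have ht' : ∀ (e : A →+* PadicAlgCl p) (i : Fin r), e.comp (t e i) = y i :=
      fun e i => RingHom.ext (ht e i)
    have huniq : ∀ (e : A →+* PadicAlgCl p) (τ τ' : K →+* A), e.comp τ = e.comp τ' → τ = τ' := by
      intro e τ τ' h
      ext z
      apply e.injective
      exact congrArg (fun f : K →+* PadicAlgCl p => f z) h
    have hsum : ∀ e : A →+* PadicAlgCl p, ∑ i, b ⟨i, t e i⟩ = 0 := by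
      intro e
      have h1 := hrel e
      rw [Fintype.sum_sigma] at h1
      have h2 : ∀ i : Fin r, ∑ τ : K →+* A, b ⟨i, τ⟩ * n i (e.comp τ) = 2 * b ⟨i, t e i⟩ := by
        intro i
        have h3 : ∀ τ : K →+* A, (e.comp τ = y i ↔ τ = t e i) ∧
            (e.comp τ = bar (y i) ↔ τ = bar (t e i)) := by
          intro τ
          constructor
          · constructor
            · intro h
              exact huniq e _ _ (h.trans (ht' e i).symm)
            · rintro rfl
              exact ht' e i
          · have h4 : e.comp (bar (t e i)) = bar (y i) := by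
              rw [← ht' e i]
              rfl
            constructor
            · intro h
              exact huniq e _ _ (h.trans h4.symm)
            · rintro rfl
              exact h4
        have h4 : ∀ τ : K →+* A, b ⟨i, τ⟩ * n i (e.comp τ) =
            (if τ = t e i then b ⟨i, τ⟩ else 0) - (if τ = bar (t e i) then b ⟨i, τ⟩ else 0) := by
          intro τ
          simp only [n, (h3 τ).1, (h3 τ).2]
          split_ifs <;> ring
        simp only [h4, Finset.sum_sub_distrib, Finset.sum_ite_eq', Finset.mem_univ, if_true]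
        have h5 : b ⟨i, bar (t e i)⟩ = - b ⟨i, t e i⟩ := hb ⟨i, t e i⟩
        rw [h5]
        ring
      have h3 : ∑ i, 2 * b ⟨i, t e i⟩ = 0 := by
        rw [← h1]
        exact Finset.sum_congr rfl fun i _ => (h2 i).symm
      rw [← Finset.mul_sum] at h3
      exact (mul_eq_zero.1 h3).resolve_left two_ne_zero
    have hzero : ∀ (e : A →+* PadicAlgCl p) (j : Fin r), b ⟨j, t e j⟩ = 0 := by
      intro e j
      obtain ⟨g, hg1, hg2⟩ := hsign (t e j)
      have h1 : ∀ i, i ≠ j → t (e.comp (g : A →+* A)) i = t e i := by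
        intro i hij
        apply huniq (e.comp (g : A →+* A))
        rw [ht', RingHom.comp_assoc, hg2 (t e i), ht']
        · intro h
          apply (hx i j hij).1
          apply hinj
          change y i = y j
          rw [← ht' e i, ← ht' e j, h]
        · intro h
          apply (hx i j hij).2
          apply hinj
          change y i = bar (y j)
          rw [← ht' e i, ← ht' e j, h]
          rfl
      have h2 : t (e.comp (g : A →+* A)) j = bar (t e j) := by
        apply huniq (e.comp (g : A →+* A))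
        rw [ht', RingHom.comp_assoc]
        have h3 : (g : A →+* A).comp (bar (t e j)) = bar ((g : A →+* A).comp (t e j)) := rfl
        rw [h3, hg1, bar_bar, ht']
      have h3 := hsum e
      have h4 := hsum (e.comp (g : A →+* A))
      rw [← Finset.add_sum_erase _ _ (Finset.mem_univ j)] at h3 h4
      have h5 : ∑ i ∈ Finset.univ.erase j, b ⟨i, t (e.comp (g : A →+* A)) i⟩ =
          ∑ i ∈ Finset.univ.erase j, b ⟨i, t e i⟩ := by
        refine Finset.sum_congr rfl fun i hi => ?_
        rw [h1 i (Finset.ne_of_mem_erase hi)]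
      rw [h5, h2] at h4
      have h6 : b ⟨j, bar (t e j)⟩ = - b ⟨j, t e j⟩ := hb ⟨j, t e j⟩
      rw [h6] at h4
      omega
    funext j
    obtain ⟨i, τ⟩ := j
    obtain ⟨e, he⟩ := exists_embedding' p τ (y i)
    have h1 : t e i = τ := huniq e _ _ ((ht' e i).trans he.symm)
    have h2 := hzero e i
    rw [h1] at h2
    exact h2

end Pool.Agent.Helper43x.TH
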